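import Pool.Agent.W617.LG.StmIV
/-! Laugwitz' problem (MP_7dd29b_gt): the flow on `Kd` up to time `T`. -/
set_option autoImplicit false
open Topology Filter Set MeasureTheory
open scoped ContDiff InnerProductSpace

namespace Pool.Agent.W377.LG4
open Pool.Agent.W617.LG

/-- a positive function with logarithmic derivative at most `K` in absolute value -/
theorem grow (K r : ℝ) (lam c : ℝ → ℝ) (hr : 0 < r)
    (hpos : ∀ t ∈ Ioo (-r) r, 0 < lam t) (hc : ∀ t ∈ Ioo (-r) r, |c t| ≤ K)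
    (hd : ∀ t ∈ Ioo (-r) r, HasDerivAt lam (c t * lam t) t) :
    ∀ t ∈ Ioo (-r) r, lam 0 * Real.exp (-(K * |t|)) ≤ lam t := by
  have h0 : (0 : ℝ) ∈ Ioo (-r) r := ⟨by linarith, hr⟩
  have hdg : ∀ k : ℝ, ∀ t ∈ Ioo (-r) r,
      HasDerivAt (fun t => lam t * Real.exp (k * t)) ((c t + k) * lam t * Real.exp (k * t)) t := by
    intro k t ht
    have h1 : HasDerivAt (fun t => Real.exp (k * t)) (Real.exp (k * t) * (k * 1)) t :=
      ((hasDerivAt_id t).const_mul k).exp
    have h2 := (hd t ht).mul h1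
    refine h2.congr_deriv ?_
    ring
  intro t ht
  rcases le_total 0 t with h | h
  · have hm : MonotoneOn (fun t => lam t * Real.exp (K * t)) (Ioo (-r) r) := by
      apply monotoneOn_of_deriv_nonneg (convex_Ioo _ _)
      · intro s hs; exact (hdg K s hs).continuousAt.continuousWithinAt
      · rw [interior_Ioo]; intro s hs; exact (hdg K s hs).differentiableAt.differentiableWithinAt
      · rw [interior_Ioo]; intro s hs
        rw [(hdg K s hs).deriv]
        have := (abs_le.1 (hc s hs)).1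
        have h3 : 0 ≤ c s + K := by linarith
        have := (hpos s hs).le
        positivity
    have h4 := hm h0 ht h
    simp only [mul_zero, Real.exp_zero, mul_one] at h4
    rw [abs_of_nonneg h]
    have h5 : lam 0 * Real.exp (-(K * t)) ≤ lam t * Real.exp (K * t) * Real.exp (-(K * t)) :=
      mul_le_mul_of_nonneg_right h4 (Real.exp_pos _).le
    rwa [mul_assoc, ← Real.exp_add, add_neg_cancel, Real.exp_zero, mul_one] at h5
  · have hm : AntitoneOn (fun t => lam t * Real.exp (-K * t)) (Ioo (-r) r) := by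
      apply antitoneOn_of_deriv_nonpos (convex_Ioo _ _)
      · intro s hs; exact (hdg (-K) s hs).continuousAt.continuousWithinAt
      · rw [interior_Ioo]; intro s hs; exact (hdg (-K) s hs).differentiableAt.differentiableWithinAt
      · rw [interior_Ioo]; intro s hs
        rw [(hdg (-K) s hs).deriv]
        have := (abs_le.1 (hc s hs)).2
        have h3 : c s + -K ≤ 0 := by linarith
        have h4 := (hpos s hs).le
        have h5 := (Real.exp_pos (-K * s)).le
        have h6 : (c s + -K) * (lam s * Real.exp (-K * s)) ≤ 0 :=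
          mul_nonpos_of_nonpos_of_nonneg h3 (mul_nonneg h4 h5)
        linarith [h6, mul_assoc (c s + -K) (lam s) (Real.exp (-K * s))]
    have h4 := hm ht h0 h
    simp only [mul_zero, Real.exp_zero, mul_one] at h4
    rw [abs_of_nonpos h]
    have h5 : lam 0 * Real.exp (-(K * -t)) ≤ lam t * Real.exp (-K * t) * Real.exp (-(K * -t)) :=
      mul_le_mul_of_nonneg_right h4 (Real.exp_pos _).le
    rwa [mul_assoc, ← Real.exp_add, show -K * t + -(K * -t) = 0 by ring, Real.exp_zero, mul_one] at h5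

/-- along a curve in an open subset of `Om` the curve stays in `Kd` -/
theorem stay (h3 : S_TAN) (q : ℕ) (C : TF q) (τ : E q → ℝ) (hL : LW q C τ) (K : ℝ)
    (hK : ∀ z ∈ GA C, ∀ l : Fin q,
      |PP C z.1 z.2 * (lam C z.1 (z.2 l.succ) * bb C z.1 z.2 l)| ≤ K)
    (hK0 : 0 < K) (δ : ℝ) (hδ : 0 < δ) (r : ℝ) (hr : 0 < r) (γ : ℝ → FB q)
    (h0 : γ 0 ∈ Kd C δ) (hγ : ∀ t ∈ Ioo (-r) r, γ t ∈ Om C ∧ HasDerivAt γ (XF C (γ t)) t) :
    ∀ t ∈ Ioo (-r) r, ‖(γ t).1‖ = ‖(γ 0).1‖ ∧ γ t ∈ Kd C (δ * Real.exp (-(K * r))) := by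
  have hz : (0 : ℝ) ∈ Ioo (-r) r := ⟨by linarith, hr⟩
  have H := h3 q C τ hL (-r) r 0 γ hz hγ h0.1.1
  have hGA : ∀ t ∈ Ioo (-r) r, γ t ∈ GA C := by
    intro t ht
    obtain ⟨hg, hn, _⟩ := H t ht
    refine ⟨hg, ?_, ?_⟩
    · rw [hn]; exact h0.1.2.1
    · rw [hn]; exact h0.1.2.2
  intro t ht
  refine ⟨(H t ht).2.1, hGA t ht, fun l => ?_⟩
  have hg := grow K r (fun s => lam C (γ s).1 ((γ s).2 l.succ))
    (fun s => PP C (γ s).1 (γ s).2 * (lam C (γ s).1 ((γ s).2 l.succ) * bb C (γ s).1 (γ s).2 l)) hr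
    (fun s hs => (H s hs).1.pos l) (fun s hs => hK _ (hGA s hs) l)
    (fun s hs => by
      refine ((H s hs).2.2 l).congr_deriv ?_
      ring) t ht
  refine le_trans ?_ hg
  have hab : |t| ≤ r := abs_le.2 ⟨ht.1.le, ht.2.le⟩
  have h5 : Real.exp (-(K * r)) ≤ Real.exp (-(K * |t|)) := by
    apply Real.exp_le_exp.2
    have := mul_le_mul_of_nonneg_left hab hK0.le
    linarith
  exact mul_le_mul (h0.2 l) h5 (Real.exp_pos _).le (le_trans hδ.le (h0.2 l))

theorem flt (h1 : S_SMX) (h2 : S_CPT) (h3 : S_TAN) (h4 : S_FLC) : S_FLT := by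
  intro q C τ hL δ hδ T hT
  obtain ⟨hOo, -, hXs⟩ := h1 q C τ hL
  obtain ⟨hcpt, K, hK0, hK⟩ := h2 q C τ hL
  obtain ⟨d, hd, hdef⟩ : ∃ d, 0 < d ∧ d = δ * Real.exp (-(K * (T + 1))) := ⟨_, by positivity, rfl⟩
  have hsub : Kd C d ⊆ Om C := by
    intro z hz
    exact ⟨hz.1.1.x0, fun l => lt_of_lt_of_le hd (hz.2 l)⟩
  obtain ⟨Y, G, hYX, hGs, hG0, hGd⟩ := h4 q (XF C) (Om C) (Kd C d) hOo (hcpt d hd) hsub hXs
  refine ⟨G, hGs, fun z hz => ⟨hG0 z, ?_⟩⟩
  -- an open neighbourhood of `Kd C d`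
  obtain ⟨V, hVo, hKV, hVO, hVY⟩ : ∃ V : Set (FB q), IsOpen V ∧ Kd C d ⊆ V ∧ V ⊆ Om C ∧
      ∀ z ∈ V, Y z = XF C z := by
    obtain ⟨V0, hV0, hKV0, hV0Y⟩ := (eventually_nhdsSet_iff_exists).1 hYX
    exact ⟨V0 ∩ Om C, hV0.inter hOo, subset_inter hKV0 hsub, inter_subset_right,
      fun z hz => hV0Y z hz.1⟩
  have hmono : ∀ r, r ≤ T + 1 → Kd C (δ * Real.exp (-(K * r))) ⊆ Kd C d := by
    intro r hr w hw
    refine ⟨hw.1, fun l => le_trans ?_ (hw.2 l)⟩
    rw [hdef]
    apply mul_le_mul_of_nonneg_left _ hδ.le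
    apply Real.exp_le_exp.2
    have := mul_le_mul_of_nonneg_left hr hK0.le
    linarith
  have hcont : Continuous (fun s => G s z) := by
    rw [continuous_iff_continuousAt]; intro s; exact (hGd z s).continuousAt
  -- staying in `V`
  have hst : ∀ s, |s| ≤ T + 1 → G s z ∈ V := by
    by_contra hcon
    push Not at hcon
    have hB : IsCompact (Icc (-(T + 1)) (T + 1) ∩ (fun s => G s z) ⁻¹' Vᶜ) :=
      isCompact_Icc.inter_right (hVo.isClosed_compl.preimage hcont)
    have hBn : (Icc (-(T + 1)) (T + 1) ∩ (fun s => G s z) ⁻¹' Vᶜ).Nonempty := by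
      obtain ⟨s, hs, hsV⟩ := hcon
      exact ⟨s, abs_le.1 hs, hsV⟩
    obtain ⟨s, hsB, hmin⟩ := hB.exists_isMinOn hBn (f := fun s => |s|) continuous_abs.continuousOn
    have hz0 : G 0 z ∈ Kd C δ := by rw [hG0]; exact hz
    have hδd : Kd C δ ⊆ Kd C d := by
      have := hmono 0 (by linarith)
      simpa using this
    have hs0 : 0 < |s| := by
      rw [abs_pos]
      rintro rfl
      exact hsB.2 (hKV (hδd hz0))
    have hsT : |s| ≤ T + 1 := abs_le.2 hsB.1
    have hin : ∀ t ∈ Ioo (-|s|) |s|, G t z ∈ V := by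
      intro t ht
      by_contra htV
      have hta : |t| < |s| := abs_lt.2 ht
      have := hmin (show t ∈ Icc (-(T + 1)) (T + 1) ∩ (fun s => G s z) ⁻¹' Vᶜ from
        ⟨abs_le.1 (by linarith), htV⟩)
      have h7 : |s| ≤ |t| := this
      linarith
    have hstay := stay h3 q C τ hL K hK hK0 δ hδ |s| hs0 (fun s => G s z) hz0
      (fun t ht => ⟨hVO (hin t ht), by rw [← hVY _ (hin t ht)]; exact hGd z t⟩)
    have hcl : G s z ∈ Kd C d := by
      have hclosed : IsClosed ((fun s => G s z) ⁻¹' Kd C d) := (hcpt d hd).isClosed.preimage hcont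
      have h8 : closure (Ioo (-|s|) |s|) ⊆ (fun s => G s z) ⁻¹' Kd C d :=
        closure_minimal (fun t ht => hmono _ hsT (hstay t ht).2) hclosed
      rw [closure_Ioo (by intro h; linarith)] at h8
      exact h8 (abs_le.1 le_rfl)
    exact hsB.2 (hKV hcl)
  have hz0 : G 0 z ∈ Kd C δ := by rw [hG0]; exact hz
  have hfin := stay h3 q C τ hL K hK hK0 δ hδ (T + 1) (by linarith) (fun s => G s z) hz0
      (fun t ht => by
        have hV := hst t (abs_le.2 ⟨ht.1.le, ht.2.le⟩)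
        exact ⟨hVO hV, by rw [← hVY _ hV]; exact hGd z t⟩)
  intro s hs
  have hs' : s ∈ Ioo (-(T + 1)) (T + 1) := by
    have := abs_le.1 hs
    constructor <;> linarith [this.1, this.2]
  obtain ⟨ha, hb⟩ := hfin s hs'
  refine ⟨hb.1, ?_, ?_⟩
  · have : ‖(G s z).1‖ = ‖(G 0 z).1‖ := ha
    rw [this, hG0]
  · rw [← hVY _ (hst s (by linarith))]
    exact hGd z s

end Pool.Agent.W377.LG4
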